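import Pool.Agent.Helper18.SV.Goals

/-!
Project SV (MP_cb0067_co), packet GB: the generic case in the quotient.
-/

open Finset
open scoped Pointwise

namespace Pool.Agent.Helper85.SV.GB

open Pool.Agent.Helper95.SF Pool.Agent.Helper18.SV

universe u

section

variable {H : Type u} [AddCommGroup H] [DecidableEq H] {s : ℕ} {A : Finset H} {x : H}

omit [DecidableEq H] in
theorem sum_const {U : Multiset H} {y : H} (hU : ∀ a ∈ U, a = y) :
    U.sum = Multiset.card U • y := by
  have h : U = Multiset.replicate (Multiset.card U) y := Multiset.eq_replicate_card.2 hU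
  conv_lhs => rw [h]
  rw [Multiset.sum_replicate]

theorem rel (hR : G_RIG.{u}) (hRig : Rig s A) (hc : 2 ≤ A.card)
    (hx : ∀ x' ∈ A, s • x' = 0 → x' = x) (U V : Multiset H) (hU : ∀ a ∈ U, a ∈ A)
    (hV : ∀ a ∈ V, a ∈ A) (hUs : Multiset.card U ≤ s) (hVs : Multiset.card V ≤ s)
    (hne : Multiset.card U ≠ Multiset.card V) (he : U.sum = V.sum) :
    ((Multiset.card U = s ∧ Multiset.card V = 0) ∨ (Multiset.card U = 0 ∧ Multiset.card V = s)) ∧
      (∀ a ∈ U, a = x) ∧ (∀ a ∈ V, a = x) := by
  obtain ⟨y, hy, h1, h2⟩ := hRig U V hU hV hUs hVs hne he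
  rw [sum_const h1, sum_const h2] at he
  have key : ∀ p q : ℕ, q < p → p ≤ s → p • y = q • y → (p = s ∧ q = 0) ∧ y = x := by
    intro p q hqp hps hpq
    have h3 : (p - q) • y = 0 := by
      have h4 : p • y = (p - q) • y + q • y := by
        rw [← add_nsmul]
        congr 1
        omega
      rw [h4] at hpq
      exact add_eq_right.1 hpq
    obtain ⟨h5, -⟩ := hR H s A hRig hc y hy (p - q) (by omega) (by omega) h3
    refine ⟨by omega, hx y hy ?_⟩
    rw [h5] at h3
    exact h3
  rcases lt_or_gt_of_ne hne with h | h
  · obtain ⟨h3, rfl⟩ := key _ _ h hVs he.symm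
    exact ⟨Or.inr ⟨h3.2, h3.1⟩, h1, h2⟩
  · obtain ⟨h3, rfl⟩ := key _ _ h hUs he
    exact ⟨Or.inl h3, h1, h2⟩

theorem inter (hR : G_RIG.{u}) (hRig : Rig s A) (hc : 2 ≤ A.card)
    (hx : ∀ x' ∈ A, s • x' = 0 → x' = x) {j k j' k' : ℕ} (h1 : j + k' ≤ s) (h2 : j' + k ≤ s)
    (h3 : j + k' ≠ j' + k) {z : H} (hz : z ∈ S A j k) (hz' : z ∈ S A j' k') :
    ((j + k' = s ∧ j' + k = 0) ∨ (j + k' = 0 ∧ j' + k = s)) ∧ z = j • x - k • x := by
  obtain ⟨U, V, hU, hV, rfl, rfl, hUV⟩ := (mem_S_iff A j k z).1 hz
  obtain ⟨U', V', hU', hV', rfl, rfl, hUV'⟩ := (mem_S_iff A j' k' z).1 hz'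
  have hs : (U + V').sum = (U' + V).sum := by
    rw [Multiset.sum_add, Multiset.sum_add]
    have e1 : U.sum = z + V.sum := by rw [← hUV]; abel
    have e2 : U'.sum = z + V'.sum := by rw [← hUV']; abel
    rw [e1, e2]
    abel
  obtain ⟨h4, h5, h6⟩ := rel hR hRig hc hx (U + V') (U' + V)
    (fun a ha => by
      rcases Multiset.mem_add.1 ha with h | h
      · exact hU a h
      · exact hV' a h)
    (fun a ha => by
      rcases Multiset.mem_add.1 ha with h | h
      · exact hU' a h
      · exact hV a h) (by rw [Multiset.card_add]; exact h1) (by rw [Multiset.card_add]; exact h2)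
    (by rw [Multiset.card_add, Multiset.card_add]; exact h3) hs
  rw [Multiset.card_add, Multiset.card_add] at h4
  refine ⟨h4, ?_⟩
  rw [← hUV, sum_const (fun a ha => h5 a (Multiset.mem_add.2 (Or.inl ha))),
    sum_const (fun a ha => h6 a (Multiset.mem_add.2 (Or.inr ha)))]

theorem card_le_S (hA : A.Nonempty) (j k : ℕ) (h : 1 ≤ j) : A.card ≤ (S A j k).card := by
  obtain ⟨j', rfl⟩ : ∃ j', j = j' + 1 := ⟨j - 1, by omega⟩
  rw [S_succ]
  exact Finset.card_le_card_add_left (S_nonempty hA j' k)

theorem S_mono_left (hA : A.Nonempty) (j k : ℕ) : (S A j k).card ≤ (S A (j + 1) k).card := by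
  rw [S_succ]
  exact Finset.card_le_card_add_right hA

theorem S_mono_right (hA : A.Nonempty) (j k : ℕ) : (S A j k).card ≤ (S A j (k + 1)).card := by
  rw [S_card_comm, S_card_comm A j (k + 1)]
  exact S_mono_left hA k j

theorem S_mono (hA : A.Nonempty) {j k j' k' : ℕ} (h1 : j ≤ j') (h2 : k ≤ k') :
    (S A j k).card ≤ (S A j' k').card := by
  have e1 : (S A j k).card ≤ (S A j' k).card := by
    induction j', h1 using Nat.le_induction with
    | base => exact le_rfl
    | succ n _ ih => exact ih.trans (S_mono_left hA n k)
  refine e1.trans ?_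
  induction k', h2 using Nat.le_induction with
  | base => exact le_rfl
  | succ n _ ih => exact ih.trans (S_mono_right hA j' n)

end

/-- packet GB. -/
theorem t (hR : G_RIG.{u}) : G_GB.{u} := by
  classical
  intro H _ _ _ s A hs hRig x hxA hxo hx hc3 hGrow
  have hc : 2 ≤ A.card := by omega
  have hne : A.Nonempty := ⟨x, hxA⟩
  have hsx : s • x = 0 := by rw [← hxo]; exact addOrderOf_nsmul_eq_zero x
  set K : AddSubgroup H := dif A with hKdef
  have hAK : ∀ a ∈ A, a - x ∈ K := fun a ha =>
    AddSubgroup.subset_closure (Finset.mem_coe.2 (Finset.sub_mem_sub ha hxA))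
  have hG : ∀ j k : ℕ, 1 ≤ j + k → (S A j k).card + 2 ≤ Nat.card K →
      (j + k) * A.card ≤ (S A j k).card := hGrow
  set Kf : Finset H := Finset.univ.filter (fun y => y ∈ K) with hKf
  have hKmem : ∀ y, y ∈ Kf ↔ y ∈ K := by
    intro y; simp [hKf]
  have hKcard : Nat.card K = Kf.card := by
    rw [Nat.card_eq_fintype_card, hKf, Fintype.card_subtype]
  have hcoset : ∀ (X : Finset H) (c : H), (∀ y ∈ X, y - c ∈ K) → X.card ≤ Nat.card K := by
    intro X c hX
    rw [hKcard, ← Finset.card_vadd_finset (-c) X]
    apply Finset.card_le_card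
    intro w hw
    obtain ⟨y, hy, rfl⟩ := Finset.mem_vadd_finset.1 hw
    rw [hKmem, vadd_eq_add, neg_add_eq_sub]
    exact hX y hy
  set a : ℕ := (s + 1) / 2 with ha
  set b : ℕ := s / 2 with hb
  have hab : a + b = s := by omega
  have ha1 : 1 ≤ a := by omega
  have hb1 : 1 ≤ b := by omega
  have hba : b ≤ a := by omega
  set q : H ⧸ K := (QuotientAddGroup.mk x : H ⧸ K) with hq
  set m : ℕ := addOrderOf q with hm
  have hmpos : 0 < m := addOrderOf_pos q
  have hmx : m • x ∈ K := by
    have h1 : m • q = 0 := addOrderOf_nsmul_eq_zero q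
    rw [hq] at h1
    rw [← QuotientAddGroup.eq_zero_iff]
    exact h1
  have hms : m ∣ s := by
    apply addOrderOf_dvd_of_nsmul_eq_zero
    have h1 : s • q = ((s • x : H) : H ⧸ K) := rfl
    rw [h1, hsx]
    rfl
  have hmK : m * Nat.card K ≤ Fintype.card H := by
    have h1 : m ∣ Nat.card (H ⧸ K) := addOrderOf_dvd_natCard q
    have h2 := AddSubgroup.card_eq_card_quotient_mul_card_addSubgroup K
    rw [← Nat.card_eq_fintype_card, h2]
    exact Nat.mul_le_mul_right _ (Nat.le_of_dvd Nat.card_pos h1)
  have hmle : m ≤ s := Nat.le_of_dvd (by omega) hms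
  rcases hmle.lt_or_eq with hlt | heq
  · -- case (i)
    have hmb : m ≤ b := by
      obtain ⟨w, hw⟩ := hms
      have h2 : 2 ≤ w := by
        rcases w with _ | _ | w
        · omega
        · omega
        · omega
      have h3 : m * 2 ≤ m * w := Nat.mul_le_mul_left m h2
      omega
    have hclaim : (S A a b).card + 2 ≤ Nat.card K := by
      by_contra hcon
      push Not at hcon
      have hV : A.card ≤ (S A b (a - m)).card := card_le_S hne _ _ hb1
      have hcard : Nat.card K < (S A a b).card + (-(S A b (a - m))).card := by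
        rw [Finset.card_neg]
        omega
      have hnd : ¬ Disjoint (S A a b) (-(S A b (a - m))) := by
        intro hd
        have h1 := hcoset (S A a b ∪ -(S A b (a - m))) (a • x - b • x) (by
          intro y hy
          rcases Finset.mem_union.1 hy with h | h
          · exact S_coset K x hAK a b y h
          · have h2 := S_coset K x hAK b (a - m) (-y) (Finset.mem_neg'.1 h)
            have h3 : y - (a • x - b • x) = -((-y) - (b • x - (a - m) • x)) - m • x := by
              have h4 : a • x = (a - m) • x + m • x := by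
                rw [← add_nsmul]
                congr 1
                omega
              rw [h4]
              abel
            rw [h3]
            exact K.sub_mem (K.neg_mem h2) hmx)
        rw [Finset.card_union_of_disjoint hd] at h1
        omega
      obtain ⟨z, hz1, hz2⟩ := Finset.not_disjoint_iff.1 hnd
      have hz3 : -z ∈ S A b (a - m) := Finset.mem_neg'.1 hz2
      obtain ⟨U, V, hU, hV, hUc, hVc, hUV⟩ := (mem_S_iff A a b z).1 hz1
      obtain ⟨U', V', hU', hV', hUc', hVc', hUV'⟩ := (mem_S_iff A b (a - m) (-z)).1 hz3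
      have hsum : (U + U').sum = (V + V').sum := by
        rw [Multiset.sum_add, Multiset.sum_add]
        have e1 : U.sum = z + V.sum := by rw [← hUV]; abel
        have e2 : U'.sum = -z + V'.sum := by rw [← hUV']; abel
        rw [e1, e2]
        abel
      obtain ⟨h4, -, -⟩ := rel hR hRig hc hx (U + U') (V + V')
        (fun y hy => by
          rcases Multiset.mem_add.1 hy with h | h
          · exact hU y h
          · exact hU' y h)
        (fun y hy => by
          rcases Multiset.mem_add.1 hy with h | h
          · exact hV y h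
          · exact hV' y h) (by rw [Multiset.card_add]; omega) (by rw [Multiset.card_add]; omega)
        (by rw [Multiset.card_add, Multiset.card_add]; omega) hsum
      rw [Multiset.card_add, Multiset.card_add] at h4
      omega
    set X : ℕ → Finset H := fun i => S A (min i a) (min (s - i) b) with hX
    have hXcard : ∀ i ∈ Finset.range (s + 1),
        (min i a + min (s - i) b) * A.card ≤ (X i).card := by
      intro i hi
      rw [Finset.mem_range] at hi
      refine hG _ _ (by omega) ?_
      have h1 : (S A (min i a) (min (s - i) b)).card ≤ (S A a b).card :=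
        S_mono hne (by omega) (by omega)
      omega
    set Y : ℕ → Finset H := fun i => if i = 0 then (X 0).erase (a • x) else X i with hY
    have hYX : ∀ i, Y i ⊆ X i := by
      intro i
      by_cases h : i = 0
      · subst h
        simp only [hY, if_pos]
        exact Finset.erase_subset _ _
      · simp only [hY, if_neg h]
        exact Finset.Subset.refl _
    have hdis : ∀ i i', i < i' → i' ≤ s → Disjoint (Y i) (Y i') := by
      intro i i' hii hi'
      rw [Finset.disjoint_left]
      intro z hz hz'
      have h1 := hYX i hz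
      have h2 := hYX i' hz'
      obtain ⟨h3, h4⟩ := inter hR hRig hc hx (j := min i' a) (k := min (s - i') b) (j' := min i a)
        (k' := min (s - i) b) (by omega) (by omega) (by omega) h2 h1
      have h5 : i = 0 := by omega
      have h6 : i' = s := by omega
      subst h5
      have h7 : z = a • x := by
        rw [h4, h6]
        have e1 : min s a = a := by omega
        have e2 : min (s - s) b = 0 := by omega
        rw [e1, e2, zero_nsmul, sub_zero]
      simp only [hY, if_pos] at hz
      exact (Finset.mem_erase.1 hz).1 h7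
    have hsum : ∑ i ∈ Finset.range (s + 1), (Y i).card ≤ Fintype.card H := by
      rw [← Finset.card_biUnion]
      · exact Finset.card_le_univ _
      · intro i hi i' hi' hii
        have hi := Finset.mem_range.1 (Finset.mem_coe.1 hi)
        have hi' := Finset.mem_range.1 (Finset.mem_coe.1 hi')
        rcases lt_or_gt_of_ne hii with h | h
        · exact hdis i i' h (by omega)
        · exact (hdis i' i h (by omega)).symm
    have hXY : ∀ i ∈ Finset.range (s + 1), (X i).card ≤ (Y i).card + (if i = 0 then 1 else 0) := by
      intro i _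
      by_cases h : i = 0
      · subst h
        simp only [hY, if_pos]
        have := Finset.pred_card_le_card_erase (s := X 0) (a := a • x)
        omega
      · simp only [hY, if_neg h]
        exact Nat.le_refl _
    have h1 : T s * A.card ≤ Fintype.card H + 1 := by
      have h2 := Finset.sum_le_sum hXcard
      rw [← Finset.sum_mul, ha, hb, sum_T] at h2
      have h3 := Finset.sum_le_sum hXY
      rw [Finset.sum_add_distrib, Finset.sum_ite_eq' (Finset.range (s + 1)) 0 (fun _ => 1)] at h3
      rw [if_pos (Finset.mem_range.2 (by omega))] at h3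
      omega
    have h2 := four_le_T s hs
    have h3 : T s * (2 * A.card - 1) + T s = 2 * (T s * A.card) := by
      have : 2 * A.card - 1 + 1 = 2 * A.card := by omega
      calc T s * (2 * A.card - 1) + T s = T s * (2 * A.card - 1 + 1) := by ring
        _ = 2 * (T s * A.card) := by rw [this]; ring
    omega
  · -- case (ii)
    have hco : ∀ y ∈ S A a 0 ∪ S A 0 b, y - a • x ∈ K := by
      intro y hy
      rcases Finset.mem_union.1 hy with h | h
      · have h2 := S_coset K x hAK a 0 y h
        rw [zero_nsmul, sub_zero] at h2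
        exact h2
      · have h2 := S_coset K x hAK 0 b y h
        rw [zero_nsmul, zero_sub] at h2
        have h3 : a • x = -(b • x) := by
          rw [eq_neg_iff_add_eq_zero, ← add_nsmul, hab]
          exact hsx
        rw [h3]
        exact h2
    have hint : (S A a 0 ∩ S A 0 b).card ≤ 1 := by
      rw [Finset.card_le_one]
      intro y hy z hz
      have h1 := (inter hR hRig hc hx (j := a) (k := 0) (j' := 0) (k' := b) (by omega) (by omega)
        (by omega) (Finset.mem_inter.1 hy).1 (Finset.mem_inter.1 hy).2).2
      have h2 := (inter hR hRig hc hx (j := a) (k := 0) (j' := 0) (k' := b) (by omega) (by omega)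
        (by omega) (Finset.mem_inter.1 hz).1 (Finset.mem_inter.1 hz).2).2
      rw [h1, h2]
    have hun := hcoset _ _ hco
    have hui := Finset.card_union_add_card_inter (S A a 0) (S A 0 b)
    have h1 : A.card ≤ (S A a 0).card := card_le_S hne _ _ ha1
    have h2 : A.card ≤ (S A 0 b).card := by
      rw [S_card_comm]
      exact card_le_S hne _ _ hb1
    have g1 := hG a 0 (by omega) (by omega)
    have g2 := hG 0 b (by omega) (by omega)
    have h3 : s * A.card ≤ Nat.card K + 1 := by
      have e1 : s * A.card = (a + 0) * A.card + (0 + b) * A.card := by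
        rw [← hab]
        ring
      omega
    have h4 : s * Nat.card K ≤ Fintype.card H := by rw [← heq]; exact hmK
    have h5 := four_T_le s
    obtain ⟨c, hcc⟩ : ∃ c, A.card = c + 1 := ⟨A.card - 1, by omega⟩
    obtain ⟨s', hs'⟩ : ∃ s', s = s' + 2 := ⟨s - 2, by omega⟩
    have h6 : s * (s * A.card) ≤ Fintype.card H + s := by
      calc s * (s * A.card) ≤ s * (Nat.card K + 1) := Nat.mul_le_mul_left s h3
        _ = s * Nat.card K + s := by ring
        _ ≤ Fintype.card H + s := Nat.add_le_add_right h4 s
    have h7 : 2 * A.card - 1 = 2 * c + 1 := by omega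
    rw [h7]
    have h8 : 4 * T s * (2 * c + 1) ≤ (3 * s ^ 2 + 2 * s) * (2 * c + 1) :=
      Nat.mul_le_mul_right _ h5
    rw [hcc, hs'] at h6
    rw [hs'] at h8 ⊢
    nlinarith
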